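import Pool.Agent.Q193.Peg.Size

/-! The diameter is a size of arcs. -/

set_option autoImplicit false
open Complex Set Topology Metric

namespace Pool.Agent.Q193.Peg

open Pool.Agent.H763R2 Pool.Agent.H763R2.An

variable {c : ℝ → ℂ}

/-- the diameter of an arc, by an affine parameter -/
noncomputable def dm (c : ℝ → ℂ) (x y : ℝ) : ℝ :=
  sSup ((fun p : ℝ × ℝ => ‖c (x + p.1 * (y - x)) - c (x + p.2 * (y - x))‖) ''
    (Icc (0:ℝ) 1 ×ˢ Icc (0:ℝ) 1))

theorem dm_cont (hc : Continuous c) : Continuous fun q : ℝ × ℝ => dm c q.1 q.2 := by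
  have hK : IsCompact (Icc (0:ℝ) 1 ×ˢ Icc (0:ℝ) 1) := isCompact_Icc.prod isCompact_Icc
  have := hK.continuous_sSup (f := fun (q : ℝ × ℝ) (p : ℝ × ℝ) =>
    ‖c (q.1 + p.1 * (q.2 - q.1)) - c (q.1 + p.2 * (q.2 - q.1))‖) (by
      unfold Function.HasUncurry.uncurry
      simp only [Function.hasUncurryInduction, Function.hasUncurryBase]
      fun_prop)
  exact this

theorem dm_eq (hc : Continuous c) {x y : ℝ} (hxy : x ≤ y) : dm c x y = diam (c '' Icc x y) := by
  have hK : IsCompact (Icc (0:ℝ) 1 ×ˢ Icc (0:ℝ) 1) := isCompact_Icc.prod isCompact_Icc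
  have cG : Continuous (fun p : ℝ × ℝ => ‖c (x + p.1 * (y - x)) - c (x + p.2 * (y - x))‖) := by
    fun_prop
  have bdd := (hK.image cG).bddAbove
  have hb : Bornology.IsBounded (c '' Icc x y) := (isCompact_Icc.image hc).isBounded
  have mem : ∀ s ∈ Icc (0:ℝ) 1, c (x + s * (y - x)) ∈ c '' Icc x y := by
    intro s hs
    refine mem_image_of_mem c ⟨?_, ?_⟩
    · have := mul_nonneg hs.1 (sub_nonneg.2 hxy); linarith
    · have := mul_le_mul_of_nonneg_right hs.2 (sub_nonneg.2 hxy); linarith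
  apply le_antisymm
  · apply csSup_le
    · exact ⟨_, mem_image_of_mem _ (mk_mem_prod (left_mem_Icc.2 zero_le_one)
        (left_mem_Icc.2 zero_le_one))⟩
    · rintro r ⟨p, hp, rfl⟩
      change ‖c (x + p.1 * (y - x)) - c (x + p.2 * (y - x))‖ ≤ _
      rw [← dist_eq_norm]
      exact dist_le_diam_of_mem hb (mem _ hp.1) (mem _ hp.2)
  · apply diam_le_of_forall_dist_le
    · have h0 : (0:ℝ) = (fun p : ℝ × ℝ => ‖c (x + p.1 * (y - x)) - c (x + p.2 * (y - x))‖)
          (0, 0) := by simp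
      rw [h0]
      exact le_csSup bdd (mem_image_of_mem _ (mk_mem_prod (left_mem_Icc.2 zero_le_one)
        (left_mem_Icc.2 zero_le_one)))
    · rintro _ ⟨s, hs, rfl⟩ _ ⟨t, ht, rfl⟩
      rcases hxy.eq_or_lt with rfl | hlt
      · have e1 : s = x := le_antisymm hs.2 hs.1
        have e2 : t = x := le_antisymm ht.2 ht.1
        subst e1
        rw [e2, dist_self]
        have h0 : (0:ℝ) = (fun p : ℝ × ℝ => ‖c (s + p.1 * (s - s)) - c (s + p.2 * (s - s))‖)
            (0, 0) := by simp
        rw [h0]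
        exact le_csSup bdd (mem_image_of_mem _ (mk_mem_prod (left_mem_Icc.2 zero_le_one)
          (left_mem_Icc.2 zero_le_one)))
      · have hd : 0 < y - x := sub_pos.2 hlt
        have e : dist (c s) (c t) = (fun p : ℝ × ℝ =>
            ‖c (x + p.1 * (y - x)) - c (x + p.2 * (y - x))‖)
            ((s - x) / (y - x), (t - x) / (y - x)) := by
          simp only
          rw [div_mul_cancel₀ _ hd.ne', div_mul_cancel₀ _ hd.ne', add_sub_cancel, add_sub_cancel,
            dist_eq_norm]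
        rw [e]
        apply le_csSup bdd
        apply mem_image_of_mem
        refine mk_mem_prod ⟨?_, ?_⟩ ⟨?_, ?_⟩
        · exact div_nonneg (by linarith [hs.1]) hd.le
        · rw [div_le_one hd]; linarith [hs.2]
        · exact div_nonneg (by linarith [ht.1]) hd.le
        · rw [div_le_one hd]; linarith [ht.2]

theorem range_eq (L : Loop c) (x : ℝ) : c '' Icc x (x + 1) = range c := by
  apply subset_antisymm (image_subset_range _ _)
  rintro _ ⟨t, rfl⟩
  have P : Function.Periodic c 1 := L.per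
  obtain ⟨y, hy, e⟩ := P.exists_mem_Ico one_pos t x
  exact ⟨y, ⟨hy.1, hy.2.le⟩, e.symm⟩

theorem dm_sz (L : Loop c) {ε : ℝ} (h0 : 0 < ε) (h1 : ε < diam (range c)) : Sz (dm c) ε where
  cont := dm_cont L.cont
  per x y := by
    unfold dm
    have : ∀ p : ℝ × ℝ, ‖c (x + 1 + p.1 * (y + 1 - (x + 1))) - c (x + 1 + p.2 * (y + 1 - (x + 1)))‖ =
        ‖c (x + p.1 * (y - x)) - c (x + p.2 * (y - x))‖ := by
      intro p
      rw [show x + 1 + p.1 * (y + 1 - (x + 1)) = x + p.1 * (y - x) + 1 by ring,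
        show x + 1 + p.2 * (y + 1 - (x + 1)) = x + p.2 * (y - x) + 1 by ring, L.per, L.per]
    simp only [this]
  lo x := by
    rw [dm_eq L.cont le_rfl, Icc_self, image_singleton, diam_singleton]
    exact h0
  hi x := by
    rw [dm_eq L.cont (by linarith), range_eq L]
    exact h1

end Pool.Agent.Q193.Peg
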