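import Pool.Agent.Y765.Sq.Tri

/-! Inscribed isosceles right triangles on arcs of a prescribed size. -/

set_option autoImplicit false
open Complex Set Topology Metric

namespace Pool.Agent.Q193.Peg

open Pool.Agent.H763R2 Pool.Agent.H763R2.An
open Pool.Agent.H763R2.Dm (NoSq)
open Pool.Agent.Y765.Sq

/-- `F` is a size of arcs and `ε` is a value between the size of a point and the size of the whole
curve -/
structure Sz (F : ℝ → ℝ → ℝ) (ε : ℝ) : Prop where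
  cont : Continuous fun p : ℝ × ℝ => F p.1 p.2
  per : ∀ x y, F (x + 1) (y + 1) = F x y
  lo : ∀ x, F x x < ε
  hi : ∀ x, ε < F x (x + 1)

variable {F : ℝ → ℝ → ℝ} {ε : ℝ}

theorem Sz.per_int (S : Sz F ε) (x y : ℝ) (n : ℤ) : F (x + n) (y + n) = F x y := by
  have hn : ∀ (m : ℕ) (x y : ℝ), F (x + m) (y + m) = F x y := by
    intro m
    induction m with
    | zero => intro x y; simp
    | succ m ih =>
      intro x y
      have := S.per (x + m) (y + m)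
      rw [ih] at this
      rw [← this]
      push_cast
      congr 1 <;> ring
  rcases le_total 0 n with h | h
  · obtain ⟨m, rfl⟩ := Int.eq_ofNat_of_zero_le h
    exact_mod_cast hn m x y
  · obtain ⟨m, hm⟩ := Int.exists_eq_neg_ofNat h
    subst hm
    have := hn m (x + ((-(m : ℤ) : ℤ) : ℝ)) (y + ((-(m : ℤ) : ℤ) : ℝ))
    push_cast at this ⊢
    rw [← this]
    congr 1 <;> ring

theorem Sz.delta (S : Sz F ε) : ∃ δ : ℝ, 0 < δ ∧ δ < 1 / 2 ∧
    ∀ x, F x (x + δ) < ε ∧ ε < F x (x + (1 - δ)) := by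
  have cF := S.cont
  have U1 : IsOpen {p : ℝ × ℝ | F p.1 (p.1 + p.2) < ε} := by
    have : Continuous fun p : ℝ × ℝ => F p.1 (p.1 + p.2) :=
      cF.comp (continuous_fst.prodMk (continuous_fst.add continuous_snd))
    exact isOpen_lt this continuous_const
  have U2 : IsOpen {p : ℝ × ℝ | ε < F p.1 (p.1 + (1 - p.2))} := by
    have : Continuous fun p : ℝ × ℝ => F p.1 (p.1 + (1 - p.2)) :=
      cF.comp (continuous_fst.prodMk (continuous_fst.add (continuous_const.sub continuous_snd)))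
    exact isOpen_lt continuous_const this
  have hU := U1.inter U2
  obtain ⟨V, W, hV, hW, hVK, hWK, hVW⟩ := generalized_tube_lemma (s := Icc (0:ℝ) 1)
    isCompact_Icc (t := {(0:ℝ)}) isCompact_singleton hU (by
      rintro ⟨x, s⟩ ⟨-, hs⟩
      have hs : s = 0 := hs
      subst hs
      refine ⟨?_, ?_⟩
      · change F x (x + 0) < ε
        rw [add_zero]; exact S.lo x
      · change ε < F x (x + (1 - 0))
        rw [sub_zero]; exact S.hi x)
  have hW0 : W ∈ 𝓝 (0:ℝ) := hW.mem_nhds (hWK rfl)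
  obtain ⟨r, hr, hrW⟩ := Metric.mem_nhds_iff.1 hW0
  obtain ⟨δ, hδ⟩ : ∃ δ, δ = min (r / 2) (1 / 4) := ⟨_, rfl⟩
  have h1 : 0 < δ := by rw [hδ]; positivity
  have h2 : δ ≤ r / 2 := by rw [hδ]; exact min_le_left _ _
  have h3 : δ ≤ 1 / 4 := by rw [hδ]; exact min_le_right _ _
  refine ⟨δ, h1, by linarith, fun x => ?_⟩
  have hx : Int.fract x ∈ V := hVK ⟨Int.fract_nonneg x, (Int.fract_lt_one x).le⟩
  have hd : δ ∈ W := hrW (by
    rw [Metric.mem_ball, Real.dist_eq, sub_zero, abs_of_pos h1]; linarith)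
  obtain ⟨k1, k2⟩ := hVW (show ((Int.fract x, δ) : ℝ × ℝ) ∈ V ×ˢ W from ⟨hx, hd⟩)
  have e1 : F x (x + δ) = F (Int.fract x) (Int.fract x + δ) := by
    rw [← S.per_int (Int.fract x) (Int.fract x + δ) ⌊x⌋]
    congr 1
    · rw [Int.fract_add_floor]
    · rw [add_right_comm, Int.fract_add_floor]
  have e2 : F x (x + (1 - δ)) = F (Int.fract x) (Int.fract x + (1 - δ)) := by
    rw [← S.per_int (Int.fract x) (Int.fract x + (1 - δ)) ⌊x⌋]
    congr 1
    · rw [Int.fract_add_floor]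
    · rw [add_right_comm, Int.fract_add_floor]
  rw [e1, e2]
  exact ⟨k1, k2⟩

/-- a continuous function on the annulus of chords -/
theorem exists_lift {G : ℝ × ℝ → ℝ} (hG : Continuous G) (hper : ∀ x s, G (x + 1, s) = G (x, s)) :
    ∃ Φ : Ann → ℝ, Continuous Φ ∧ ∀ x s : ℝ, Φ ((x : AddCircle (1 : ℝ)), s) = G (x, s) := by
  refine ⟨fun p => Function.Periodic.lift (f := fun x => G (x, p.2)) (c := (1 : ℝ))
    (fun x => hper x p.2) p.1, ?_, fun x s => rfl⟩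
  have hq : IsOpenQuotientMap (fun q : ℝ × ℝ => ((q.1 : AddCircle (1 : ℝ)), q.2)) :=
    (QuotientAddGroup.isOpenQuotientMap_mk (G := ℝ) (N := AddSubgroup.zmultiples (1:ℝ))).prodMap
      IsOpenQuotientMap.id
  rw [hq.isQuotientMap.continuous_iff]
  exact hG

variable {c : ℝ → ℂ}

/-- triangles on arcs of a given size -/
theorem sized (L : Loop c) (J : Inj c) (nosq : NoSq (range c)) {κ : ℂ} (hκ : κ = I ∨ κ = -I)
    {σ : ℝ} (hσ : σ = 1 ∨ σ = -1) (S : Sz F ε) :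
    ∃ t1 t2 t3 : ℝ, t1 < t2 ∧ t2 < t3 ∧ t3 < t1 + 1 ∧ F t1 t3 = ε ∧
      (TriM c κ σ t1 t3 t2 ∨ TriM c κ σ t3 t1 t2) := by
  have cF := S.cont
  obtain ⟨δ, hδ, hδ2, hD⟩ := S.delta
  obtain ⟨T, hT, ⟨p, hp, e1⟩, ⟨q, hq, e2⟩, hs, h | h⟩ := tri_fam L J nosq hκ hσ hδ hδ2
  · obtain ⟨Φ, cΦ, hΦ⟩ := exists_lift (G := fun p : ℝ × ℝ => F p.1 (p.1 + p.2))
      (cF.comp (continuous_fst.prodMk (continuous_fst.add continuous_snd))) (fun x s => by
        change F (x + 1) (x + 1 + s) = F x (x + s)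
        rw [← S.per x (x + s)]
        congr 1; ring)
    obtain ⟨x, -, hx⟩ := exists_rep p.1
    obtain ⟨y, -, hy⟩ := exists_rep q.1
    have a1 : Φ p < ε := by
      have : p = ((x : AddCircle (1 : ℝ)), δ) := Prod.ext hx.symm e1
      rw [this, hΦ]; exact (hD x).1
    have a2 : ε < Φ q := by
      have : q = ((y : AddCircle (1 : ℝ)), 1 - δ) := Prod.ext hy.symm e2
      rw [this, hΦ]; exact (hD y).2
    obtain ⟨r, hr, er⟩ := hT.isPreconnected.intermediate_value hp hq cΦ.continuousOn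
      ⟨a1.le, a2.le⟩
    obtain ⟨z, -, hz⟩ := exists_rep r.1
    obtain ⟨u, u1, u2, u3⟩ := h r hr z hz
    have : r = ((z : AddCircle (1 : ℝ)), r.2) := Prod.ext hz.symm rfl
    rw [this, hΦ] at er
    exact ⟨z, u, z + r.2, u1, u2, by have := (hs r hr).2; linarith, er, Or.inl u3⟩
  · obtain ⟨Φ, cΦ, hΦ⟩ := exists_lift (G := fun p : ℝ × ℝ => F (p.1 + p.2) (p.1 + 1))
      (cF.comp ((continuous_fst.add continuous_snd).prodMk (continuous_fst.add continuous_const)))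
      (fun x s => by
        change F (x + 1 + s) (x + 1 + 1) = F (x + s) (x + 1)
        rw [← S.per (x + s) (x + 1)]
        congr 1; ring)
    obtain ⟨x, -, hx⟩ := exists_rep p.1
    obtain ⟨y, -, hy⟩ := exists_rep q.1
    have a1 : ε < Φ p := by
      have : p = ((x : AddCircle (1 : ℝ)), δ) := Prod.ext hx.symm e1
      rw [this, hΦ]
      change ε < F (x + δ) (x + 1)
      have := (hD (x + δ)).2
      rwa [show x + δ + (1 - δ) = x + 1 by ring] at this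
    have a2 : Φ q < ε := by
      have : q = ((y : AddCircle (1 : ℝ)), 1 - δ) := Prod.ext hy.symm e2
      rw [this, hΦ]
      change F (y + (1 - δ)) (y + 1) < ε
      have := (hD (y + (1 - δ))).1
      rwa [show y + (1 - δ) + δ = y + 1 by ring] at this
    obtain ⟨r, hr, er⟩ := hT.isPreconnected.intermediate_value hq hp cΦ.continuousOn
      ⟨a2.le, a1.le⟩
    obtain ⟨z, -, hz⟩ := exists_rep r.1
    obtain ⟨u, u1, u2, u3⟩ := h r hr z hz
    have : r = ((z : AddCircle (1 : ℝ)), r.2) := Prod.ext hz.symm rfl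
    rw [this, hΦ] at er
    refine ⟨z + r.2, u, z + 1, u1, u2, by have := (hs r hr).1; linarith, er, Or.inr ?_⟩
    obtain ⟨b1, b2⟩ := u3
    refine ⟨?_, ?_⟩
    · rw [L.per]; exact b1
    · rw [L.per]; exact b2

/-- the open condition: the arcs of a given size stay away from two opposite vertices of the two
squares on their chords -/
theorem near {c0 : ℝ → ℂ} (h0 : Continuous c0) (hper0 : ∀ t, c0 (t + 1) = c0 t) (S : Sz F ε)
    {κ : ℂ} (hκ : κ = I ∨ κ = -I)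
    (H : ∀ x u y, x ≤ u → u ≤ y → y ≤ x + 1 → F x y = ε →
      c0 u ≠ c0 x + κ * (c0 y - c0 x) ∧ c0 u ≠ c0 y + κ * (c0 x - c0 y)) :
    ∃ η : ℝ, 0 < η ∧ ∀ c : ℝ → ℂ, Loop c → Inj c → (∀ t, ‖c t - c0 t‖ < η) →
      ¬ NoSq (range c) := by
  have cF := S.cont
  have hκ1 : ‖κ‖ = 1 := by rcases hκ with rfl | rfl <;> simp
  obtain ⟨K, hK⟩ : ∃ K : Set (ℝ × ℝ × ℝ), K = {q | (q.1 ∈ Icc (0:ℝ) 1 ∧ q.2.1 ∈ Icc (0:ℝ) 2 ∧
    q.2.2 ∈ Icc (0:ℝ) 2) ∧ q.1 ≤ q.2.1 ∧ q.2.1 ≤ q.2.2 ∧ q.2.2 ≤ q.1 + 1 ∧ F q.1 q.2.2 = ε} :=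
    ⟨_, rfl⟩
  have Kc : IsCompact K := by
    have hB : IsCompact (Icc (0:ℝ) 1 ×ˢ Icc (0:ℝ) 2 ×ˢ Icc (0:ℝ) 2) :=
      isCompact_Icc.prod (isCompact_Icc.prod isCompact_Icc)
    have h1 : IsClosed {q : ℝ × ℝ × ℝ | q.1 ≤ q.2.1 ∧ q.2.1 ≤ q.2.2 ∧ q.2.2 ≤ q.1 + 1 ∧
        F q.1 q.2.2 = ε} := by
      have c1 : Continuous fun q : ℝ × ℝ × ℝ => q.1 := continuous_fst
      have c2 : Continuous fun q : ℝ × ℝ × ℝ => q.2.1 := continuous_fst.comp continuous_snd
      have c3 : Continuous fun q : ℝ × ℝ × ℝ => q.2.2 := continuous_snd.comp continuous_snd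
      exact (isClosed_le c1 c2).inter ((isClosed_le c2 c3).inter
        ((isClosed_le c3 (c1.add continuous_const)).inter
          (isClosed_eq (cF.comp (c1.prodMk c3)) continuous_const)))
    have h2 : K = (Icc (0:ℝ) 1 ×ˢ Icc (0:ℝ) 2 ×ˢ Icc (0:ℝ) 2) ∩
        {q : ℝ × ℝ × ℝ | q.1 ≤ q.2.1 ∧ q.2.1 ≤ q.2.2 ∧ q.2.2 ≤ q.1 + 1 ∧ F q.1 q.2.2 = ε} := by
      rw [hK]; ext q; rfl
    rw [h2]
    exact hB.inter_right h1
  obtain ⟨f, hf⟩ : ∃ f : ℝ × ℝ × ℝ → ℝ, f = fun q =>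
    min ‖c0 q.2.1 - (c0 q.1 + κ * (c0 q.2.2 - c0 q.1))‖
      ‖c0 q.2.1 - (c0 q.2.2 + κ * (c0 q.1 - c0 q.2.2))‖ := ⟨_, rfl⟩
  have cf : Continuous f := by
    rw [hf]
    have c1 : Continuous fun q : ℝ × ℝ × ℝ => c0 q.1 := h0.comp continuous_fst
    have c2 : Continuous fun q : ℝ × ℝ × ℝ => c0 q.2.1 :=
      h0.comp (continuous_fst.comp continuous_snd)
    have c3 : Continuous fun q : ℝ × ℝ × ℝ => c0 q.2.2 :=
      h0.comp (continuous_snd.comp continuous_snd)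
    fun_prop
  have fpos : ∀ q ∈ K, 0 < f q := by
    intro q hq
    rw [hK] at hq
    obtain ⟨-, k1, k2, k3, k4⟩ := hq
    obtain ⟨n1, n2⟩ := H q.1 q.2.1 q.2.2 k1 k2 k3 k4
    rw [hf]
    exact lt_min (norm_pos_iff.2 (sub_ne_zero.2 n1)) (norm_pos_iff.2 (sub_ne_zero.2 n2))
  obtain ⟨m, hm, hmK⟩ : ∃ m : ℝ, 0 < m ∧ ∀ q ∈ K, m ≤ f q := by
    rcases K.eq_empty_or_nonempty with hE | hE
    · exact ⟨1, one_pos, fun q hq => by rw [hE] at hq; exact absurd hq (notMem_empty q)⟩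
    · obtain ⟨q0, hq0, hmin⟩ := Kc.exists_isMinOn hE cf.continuousOn
      exact ⟨f q0, fpos q0 hq0, fun q hq => hmin hq⟩
  refine ⟨m / 4, by positivity, fun c L J hη nosq => ?_⟩
  obtain ⟨t1, t2, t3, h1, h2, h3, h4, h5⟩ := sized L J nosq hκ (σ := 1) (Or.inl rfl) S
  -- shift to the fundamental domain
  obtain ⟨n, hn⟩ : ∃ n : ℤ, n = ⌊t1⌋ := ⟨_, rfl⟩
  have f1 : (n : ℝ) ≤ t1 := by rw [hn]; exact Int.floor_le t1
  have f2 : t1 < n + 1 := by rw [hn]; exact Int.lt_floor_add_one t1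
  have per0 : ∀ (t : ℝ), c0 (t - n) = c0 t := by
    intro t
    have P : Function.Periodic c0 1 := hper0
    have := P.sub_zsmul_eq n (x := t)
    rwa [zsmul_eq_mul, mul_one] at this
  have hqK : ((t1 - n, t2 - n, t3 - n) : ℝ × ℝ × ℝ) ∈ K := by
    rw [hK]
    refine ⟨⟨⟨?_, ?_⟩, ⟨?_, ?_⟩, ⟨?_, ?_⟩⟩, ?_, ?_, ?_, ?_⟩ <;> dsimp only <;> try linarith
    have := S.per_int (t1 - n) (t3 - n) n
    rw [sub_add_cancel, sub_add_cancel] at this
    rw [← this]; exact h4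
  have hm' := hmK _ hqK
  rw [hf] at hm'
  simp only [per0] at hm'
  have e1 := hη t1
  have e2 := hη t2
  have e3 := hη t3
  have est : ∀ a b d : ℝ, ‖c a - c0 a‖ < m / 4 → ‖c b - c0 b‖ < m / 4 → ‖c d - c0 d‖ < m / 4 →
      c d = c a + κ * (c b - c a) → ‖c0 d - (c0 a + κ * (c0 b - c0 a))‖ < m := by
    intro a b d ha hb hd e
    have : c0 d - (c0 a + κ * (c0 b - c0 a)) =
        -(c d - c0 d) + (c a - c0 a) + κ * (c b - c0 b) - κ * (c a - c0 a) := by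
      linear_combination e
    rw [this]
    calc ‖-(c d - c0 d) + (c a - c0 a) + κ * (c b - c0 b) - κ * (c a - c0 a)‖
        ≤ ‖-(c d - c0 d)‖ + ‖c a - c0 a‖ + ‖κ * (c b - c0 b)‖ + ‖κ * (c a - c0 a)‖ := by
          refine (norm_sub_le _ _).trans (add_le_add_left ?_ _)
          refine (norm_add_le _ _).trans (add_le_add_left ?_ _)
          exact norm_add_le _ _
      _ < m := by
          rw [norm_neg, norm_mul, norm_mul, hκ1, one_mul, one_mul]
          linarith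
  rcases h5 with h5 | h5
  · have := est t1 t3 t2 e1 e3 e2 h5.1
    exact absurd (hm'.trans (min_le_left _ _)) (not_le.2 this)
  · have := est t3 t1 t2 e3 e1 e2 h5.1
    exact absurd (hm'.trans (min_le_right _ _)) (not_le.2 this)

end Pool.Agent.Q193.Peg
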